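import Pool.Agent.R598.PM.Dy

set_option autoImplicit false

namespace Pool.Agent.Results.MP_211e54_lc.DyadicWeaklyDedekindFinite

open Pool.Agent.W868 Pool.Agent.R598.PM

/-- There is a countable transitive model `M` of ZF with a set `A` that is, in `M`, dyadically
filterbase infinite and weakly Dedekind-finite. -/
theorem result : ∃ M : Set ZFSet.{0}, M.Countable ∧ IsZF M ∧ ∃ A ∈ M,
    DyadInf M A ∧ WeakDFin M A := Dy.main

end Pool.Agent.Results.MP_211e54_lc.DyadicWeaklyDedekindFinite
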